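import Mathlib
import Pool.Agent.Lib.MP_1bb0e8_anK56.Main

/-!
# MP_1bb0e8_an: principal continua and impressions of the prime ends of the basin of infinity

`c` is a complex number and `φ` the Riemann map of the basin of infinity of `z ^ 2 + c`.
-/

set_option autoImplicit false

open Filter Topology

namespace Pool.Agent.Results.MP_1bb0e8_an.ExteriorDichotomy

open SiegelPE

/-- Let `φ` be holomorphic on `|z| > 1` with `φ (u z ^ 2) = φ z ^ 2 + c`, `|u| = 1`.  Let `N` be
the set of the `t` whose principal continuum `P(t)` is nondegenerate.  `N` is invariant under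
`t ↦ u t ^ 2` (backward and forward), and empty or dense.  Either the impression has at most one
point for residually many `t` and `N` is meagre, or there is `d > 0` such that the diameter of the
impression is at least `d` for every `t`, and that of `P(t)` is at least `d` for residually many
`t`. -/
theorem result (c : ℂ) (u : Circle) (φ : ℂ → ℂ) (hφ : DifferentiableOn ℂ φ {z : ℂ | 1 < ‖z‖})
    (he : ∀ z : ℂ, 1 < ‖z‖ → φ ((u : ℂ) * z ^ 2) = quad c (φ z)) :
    (∀ t : Circle, (PE φ (u * t ^ 2)).Nontrivial ↔ (PE φ t).Nontrivial) ∧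
    ({t : Circle | (PE φ t).Nontrivial} = ∅ ∨ Dense {t : Circle | (PE φ t).Nontrivial}) ∧
    (({t : Circle | (IE φ t).Subsingleton} ∈ residual Circle ∧
        IsMeagre {t : Circle | (PE φ t).Nontrivial}) ∨
      (∃ d : ℝ, 0 < d ∧ (∀ t : Circle, Wide d (IE φ t)) ∧
        {t : Circle | Wide d (PE φ t)} ∈ residual Circle)) := by
  have h := main_E c u φ hφ.continuousOn he
  exact ⟨h.1, h.2.1, full_E c u φ hφ.continuousOn he⟩

end Pool.Agent.Results.MP_1bb0e8_an.ExteriorDichotomy
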