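import Mathlib
import Pool.Agent.Lib.MP_1bb0e8_anK56.Main

/-!
# MP_1bb0e8_an: principal continua and impressions of the prime ends of a Siegel disk

`c` is a complex number, `S` the Siegel disk of `z ^ 2 + c` and `ψ` its linearising map.
-/

set_option autoImplicit false

open Filter Topology

namespace Pool.Agent.Results.MP_1bb0e8_an.SiegelDichotomy

open SiegelPE

/-- Let `S` be open and `ψ : 𝔻 → S` a bijection, holomorphic, with `ψ (l z) = ψ z ^ 2 + c`,
where `l` is on the circle and no root of unity.  Let `N` be the set of the `t` whose principal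
continuum `P_S(t)` is nondegenerate.  `N` is invariant under the rotation by `l`, and empty or
dense.  Either the impression has at most one point for residually many `t` and `N` is meagre, or
there is `d > 0` such that the diameter of the impression is at least `d` for every `t`, and that of
`P_S(t)` is at least `d` for residually many `t`.  A periodic point `p` of `z ^ 2 + c` in `∂S` lies
in every impression, and in `P_S(t)` for residually many `t`; if `p` is no fixed point then `N` is
residual. -/
theorem result (c : ℂ) (l : Circle) (S : Set ℂ) (ψ : ℂ → ℂ) (hl : ∀ n : ℕ, 0 < n → l ^ n ≠ 1)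
    (hS : IsOpen S) (hψ : DifferentiableOn ℂ ψ (Metric.ball 0 1))
    (hb : Set.BijOn ψ (Metric.ball 0 1) S)
    (he : ∀ z ∈ Metric.ball (0 : ℂ) 1, ψ ((l : ℂ) * z) = quad c (ψ z)) :
    (∀ t : Circle, (PS ψ (l * t)).Nontrivial ↔ (PS ψ t).Nontrivial) ∧
    ({t : Circle | (PS ψ t).Nontrivial} = ∅ ∨ Dense {t : Circle | (PS ψ t).Nontrivial}) ∧
    (({t : Circle | (IS ψ t).Subsingleton} ∈ residual Circle ∧
        IsMeagre {t : Circle | (PS ψ t).Nontrivial}) ∨
      (∃ d : ℝ, 0 < d ∧ (∀ t : Circle, Wide d (IS ψ t)) ∧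
        {t : Circle | Wide d (PS ψ t)} ∈ residual Circle)) ∧
    (∀ p ∈ frontier S, ∀ k : ℕ, 0 < k → (quad c)^[k] p = p →
      (∀ t : Circle, p ∈ IS ψ t) ∧
      {t : Circle | p ∈ PS ψ t} ∈ residual Circle ∧
      (quad c p ≠ p → {t : Circle | (PS ψ t).Nontrivial} ∈ residual Circle)) := by
  have h := main_S c l hl S hS ψ hψ.continuousOn hb he
  refine ⟨h.1, h.2.1, full_S c l hl ψ hψ.continuousOn he, fun p hp k hk hpk => ?_⟩
  have h2 := h.2.2.2 p hp k hk hpk
  exact ⟨mem_IS_of_dense ψ p (dense_of_mem_residual h2.1), h2⟩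

end Pool.Agent.Results.MP_1bb0e8_an.SiegelDichotomy
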